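import Mathlib
import Pool.Agent.R729.Weiss.Defs
import Pool.Agent.R729.Weiss.FinalQ2

/-!
# A transitive system whose spanning rates oscillate while all separation rates converge (Weiss, Q2)

The system is the orbit closure (under the shift) of one bi-infinite sequence over a compact
alphabet contained in the cube `[0,1]³` with the maximum metric, with the metric
`D(x,y) = sup_i 2^{-|i|} ρ(x_i,y_i)`. The sequence is made of blocks separated by long runs of a
letter `#`: for every class `k` all words of length `4^k + 1` over two letters `0_k, 1_k` at distance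
one, and one word `*_k^{4^k}`, where `ρ(*_j,0_k), ρ(*_j,1_k) < 3/4` holds exactly for `j ≤ k`.
For `T = 4^k` the star words dominate all blocks of classes `≥ k`, for `T = 4^k + 1` the words of
class `k` need `2^T` centres, and the separation numbers are `2^T` up to a polynomial factor.

`bowenDist`, `IsSep`, `IsSpan`, `sepNum`, `spanNum`, `sLow`, `sUp`, `pLow`, `pUp`, `Transitive` are
defined in `Pool.Agent.R729.Weiss.Defs`, word by word as in the problem.
-/

namespace Pool.Agent.Results.MP_307271_an.SpanOscillates

open Filter Topology Pool.Agent.R729.Weiss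

/-- There is a compact metric space `X` with a homeomorphism `F` which is topologically transitive
(some forward orbit is dense) and of finite topological entropy
(`h = lim_{ε → 0+} limsup_T ln sep(X,ε,D_T)/T` is a real number), such that for some `ε > 0`
`liminf_T ln span(X,ε,D_T)/T < limsup_T ln span(X,ε,D_T)/T`, whereas for every `δ > 0`
`liminf_T ln sep(X,δ,D_T)/T = limsup_T ln sep(X,δ,D_T)/T`. -/
theorem result : ∃ (X : Type) (_ : MetricSpace X) (_ : CompactSpace X) (F : X ≃ₜ X),
    Transitive F ∧
    (∃ h : ℝ, Tendsto (fun ε : ℝ => sUp F ε) (𝓝[>] 0) (𝓝 (h : EReal))) ∧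
    (∃ ε : ℝ, 0 < ε ∧ pLow F ε < pUp F ε) ∧
    ∀ δ : ℝ, 0 < δ → sLow F δ = sUp F δ :=
  ⟨XX, inferInstance, inferInstance, FF, transitive_FF, ⟨Real.log 2, entropy_FF⟩,
    ⟨3 / 4, by norm_num, pLow_lt_pUp⟩, fun _ hδ => sLow_eq hδ⟩

end Pool.Agent.Results.MP_307271_an.SpanOscillates
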